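import Pool.Agent.AFL.Stmts

/-!
# Squad AFL, row EUB (helper56): elementary facts about the form of a network
-/

set_option autoImplicit false

open MeasureTheory ProbabilityTheory

open scoped BigOperators Matrix

noncomputable section

namespace Pool.Agent.AFL.H56

open Pool.Agent.LE.QF Pool.Agent.AFJ Pool.Agent.ABY Pool.Agent.AFL

variable {X : Type} [Fintype X] [DecidableEq X]

theorem dl_mulVec (c : Matrix X X ℝ) (f : X → ℝ) (x : X) :
    (Dl c *ᵥ f) x = ∑ y, c x y * (f x - f y) := by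
  unfold Dl
  rw [Matrix.sub_mulVec, Pi.sub_apply, Matrix.mulVec_diagonal]
  simp only [Matrix.mulVec, dotProduct]
  rw [Finset.sum_mul, ← Finset.sum_sub_distrib]
  exact Finset.sum_congr rfl fun y _ => by ring

theorem qf_dl (c : Matrix X X ℝ) (hc : ∀ x y, c x y = c y x) (f : X → ℝ) :
    2 * qf (Dl c) f = ∑ x, ∑ y, c x y * (f x - f y) ^ 2 := by
  have h1 : qf (Dl c) f = ∑ x, ∑ y, c x y * (f x * (f x - f y)) := by
    unfold qf
    refine Finset.sum_congr rfl fun x _ => ?_
    rw [dl_mulVec, Finset.mul_sum]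
    exact Finset.sum_congr rfl fun y _ => by ring
  have h2 : qf (Dl c) f = ∑ x, ∑ y, c x y * (f y * (f y - f x)) := by
    rw [h1, Finset.sum_comm]
    refine Finset.sum_congr rfl fun x _ => Finset.sum_congr rfl fun y _ => ?_
    rw [hc y x]
  have h3 : 2 * qf (Dl c) f = qf (Dl c) f + qf (Dl c) f := by ring
  rw [h3]
  nth_rewrite 1 [h1]
  rw [h2, ← Finset.sum_add_distrib]
  refine Finset.sum_congr rfl fun x _ => ?_
  rw [← Finset.sum_add_distrib]
  exact Finset.sum_congr rfl fun y _ => by ring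

theorem KK_nonneg (G : Matrix X X ℂ) (x y : X) : 0 ≤ KK G x y := by
  unfold KK
  positivity

theorem cd_symm {G : Matrix X X ℂ} {κ : X → ℝ} (hN : Net G κ) (A : Finset X) (x y : X) :
    cd G κ A x y = cd G κ A y x := by
  unfold cd KK
  rw [hN.hs x y]
  by_cases h : x ∈ A ∧ y ∈ A
  · rw [if_pos h, if_pos h.symm]
    ring
  · rw [if_neg h, if_neg (fun h' => h h'.symm)]

theorem cd_nonneg {G : Matrix X X ℂ} {κ : X → ℝ} (hN : Net G κ) (A : Finset X) (x y : X) :
    0 ≤ cd G κ A x y := by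
  unfold cd
  split_ifs
  · exact mul_nonneg (mul_nonneg (hN.hκ x).le (hN.hκ y).le) (KK_nonneg G x y)
  · exact le_rfl

theorem cd_sum (G : Matrix X X ℂ) (κ : X → ℝ) (A : Finset X) (x : X) :
    ∑ y, cd G κ A x y = if x ∈ A then κ x * rho G κ A x else 0 := by
  unfold cd
  by_cases hx : x ∈ A
  · rw [if_pos hx]
    unfold rho
    rw [Finset.mul_sum, ← Finset.sum_filter_add_sum_filter_not Finset.univ (· ∈ A)]
    have h1 : ∑ y ∈ Finset.univ.filter (fun y => ¬ y ∈ A),
        (if x ∈ A ∧ y ∈ A then κ x * κ y * KK G x y else 0) = 0 :=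
      Finset.sum_eq_zero fun y hy => if_neg fun h => (Finset.mem_filter.1 hy).2 h.2
    rw [h1, add_zero]
    have h2 : Finset.univ.filter (fun y => y ∈ A) = A := by ext y; simp
    rw [h2]
    refine Finset.sum_congr rfl fun y hy => ?_
    rw [if_pos ⟨hx, hy⟩]
    ring
  · rw [if_neg hx]
    exact Finset.sum_eq_zero fun y _ => if_neg fun h => hx h.1

theorem sum_if_mem (A : Finset X) (f : X → ℝ) :
    ∑ x, (if x ∈ A then f x else 0) = ∑ x ∈ A, f x := by
  rw [Finset.sum_ite_mem, Finset.univ_inter]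

theorem eub : EubStmt := by
  intro X _ _ G κ A b f hN hbA
  have hsym := cd_symm hN A
  have hnn := cd_nonneg hN A
  have hq : ∀ f : X → ℝ, 2 * qf (EE G κ A) f = ∑ x, ∑ y, cd G κ A x y * (f x - f y) ^ 2 :=
    fun f => qf_dl _ hsym f
  refine ⟨?_, ?_, ?_, ?_, ?_, ?_⟩
  · ext x y
    rw [Matrix.transpose_apply]
    unfold EE Dl
    rw [Matrix.sub_apply, Matrix.sub_apply, hsym y x]
    congr 1
    by_cases hxy : x = y
    · rw [hxy]
    · rw [Matrix.diagonal_apply_ne _ hxy, Matrix.diagonal_apply_ne _ (Ne.symm hxy)]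
  · have h1 : 0 ≤ 2 * qf (EE G κ A) f := by
      rw [hq]
      exact Finset.sum_nonneg fun x _ => Finset.sum_nonneg fun y _ =>
        mul_nonneg (hnn x y) (sq_nonneg _)
    linarith
  · have h1 : 2 * qf (EE G κ A) f ≤ ∑ x, ∑ y, cd G κ A x y * (2 * f x ^ 2 + 2 * f y ^ 2) := by
      rw [hq]
      refine Finset.sum_le_sum fun x _ => Finset.sum_le_sum fun y _ =>
        mul_le_mul_of_nonneg_left ?_ (hnn x y)
      nlinarith [sq_nonneg (f x + f y)]
    have h2 : ∑ x, ∑ y, cd G κ A x y * (2 * f y ^ 2) = ∑ x, ∑ y, cd G κ A x y * (2 * f x ^ 2) := by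
      rw [Finset.sum_comm]
      refine Finset.sum_congr rfl fun x _ => Finset.sum_congr rfl fun y _ => ?_
      rw [hsym y x]
    have h3 : ∑ x, ∑ y, cd G κ A x y * (2 * f x ^ 2) = 2 * ∑ x ∈ A, κ x * rho G κ A x * f x ^ 2 := by
      rw [← sum_if_mem A (fun x => κ x * rho G κ A x * f x ^ 2), Finset.mul_sum]
      refine Finset.sum_congr rfl fun x _ => ?_
      rw [← Finset.sum_mul, cd_sum]
      split_ifs <;> ring
    have h4 : ∑ x, ∑ y, cd G κ A x y * (2 * f x ^ 2 + 2 * f y ^ 2) =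
        ∑ x, ∑ y, cd G κ A x y * (2 * f x ^ 2) + ∑ x, ∑ y, cd G κ A x y * (2 * f y ^ 2) := by
      rw [← Finset.sum_add_distrib]
      refine Finset.sum_congr rfl fun x _ => ?_
      rw [← Finset.sum_add_distrib]
      exact Finset.sum_congr rfl fun y _ => by ring
    rw [h4, h2, h3] at h1
    linarith
  · intro k' a ha hk' hka
    have h1 : ∀ x ∈ b, ((EE G κ A *ᵥ f) x / k' x) ^ 2 ≤
        a * ∑ y, cd G κ A x y * (f x - f y) ^ 2 := by
      intro x hx
      have h2 : (EE G κ A *ᵥ f) x = ∑ y, cd G κ A x y * (f x - f y) := dl_mulVec _ f x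
      have h3 : (∑ y, cd G κ A x y * (f x - f y)) ^ 2 ≤
          (∑ y, cd G κ A x y) * ∑ y, cd G κ A x y * (f x - f y) ^ 2 := by
        refine Finset.sum_sq_le_sum_mul_sum_of_sq_le_mul _ (fun y _ => hnn x y)
          (fun y _ => mul_nonneg (hnn x y) (sq_nonneg _)) fun y _ => le_of_eq ?_
        ring
      have h4 : ∑ y, cd G κ A x y ≤ a * k' x ^ 2 := by
        rw [cd_sum, if_pos (hbA hx)]
        exact hka x hx
      have h5 : 0 ≤ ∑ y, cd G κ A x y * (f x - f y) ^ 2 :=
        Finset.sum_nonneg fun y _ => mul_nonneg (hnn x y) (sq_nonneg _)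
      rw [h2, div_pow, div_le_iff₀ (pow_pos (hk' x hx) 2)]
      calc _ ≤ _ := h3
        _ ≤ a * k' x ^ 2 * ∑ y, cd G κ A x y * (f x - f y) ^ 2 :=
          mul_le_mul_of_nonneg_right h4 h5
        _ = _ := by ring
    have h2 : 2 * a * qf (EE G κ A) f = a * ∑ x, ∑ y, cd G κ A x y * (f x - f y) ^ 2 := by
      rw [← hq]
      ring
    rw [h2]
    refine (Finset.sum_le_sum h1).trans ?_
    rw [← Finset.mul_sum]
    refine mul_le_mul_of_nonneg_left ?_ ha
    exact Finset.sum_le_sum_of_subset_of_nonneg (Finset.subset_univ _) fun x _ _ =>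
      Finset.sum_nonneg fun y _ => mul_nonneg (hnn x y) (sq_nonneg _)
  · intro hf
    have h1 : qf (EE G κ A) f = ∑ x, ∑ y, (cd G κ A x y * f x ^ 2 - f x * (cd G κ A x y * f y)) := by
      unfold qf
      refine Finset.sum_congr rfl fun x _ => ?_
      have h2 : (EE G κ A *ᵥ f) x = ∑ y, cd G κ A x y * (f x - f y) := dl_mulVec _ f x
      rw [h2, Finset.mul_sum]
      exact Finset.sum_congr rfl fun y _ => by ring
    have h2 : qf (KK G) (fun x => κ x * f x) = ∑ x, ∑ y, f x * (cd G κ A x y * f y) := by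
      unfold qf
      refine Finset.sum_congr rfl fun x _ => ?_
      simp only [Matrix.mulVec, dotProduct]
      rw [Finset.mul_sum]
      refine Finset.sum_congr rfl fun y _ => ?_
      unfold cd
      by_cases hx : x ∈ A
      · by_cases hy : y ∈ A
        · rw [if_pos ⟨hx, hy⟩]
          ring
        · rw [hf y hy]
          ring
      · rw [hf x hx]
        ring
    have h3 : ∑ x, ∑ y, cd G κ A x y * f x ^ 2 = ∑ x ∈ A, κ x * rho G κ A x * f x ^ 2 := by
      rw [← sum_if_mem A (fun x => κ x * rho G κ A x * f x ^ 2)]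
      refine Finset.sum_congr rfl fun x _ => ?_
      rw [← Finset.sum_mul, cd_sum]
      split_ifs <;> ring
    rw [← h3, h1, h2]
    rw [← Finset.sum_sub_distrib]
    refine Finset.sum_congr rfl fun x _ => ?_
    rw [← Finset.sum_sub_distrib]
    exact Finset.sum_congr rfl fun y _ => by ring
  · intro x
    have h1 := congrArg Complex.re (hN.hw x x)
    rw [Complex.re_sum, Complex.ofReal_re] at h1
    rw [← h1]
    unfold rho
    have h2 : ∀ y, ((κ y : ℂ) * (G x y * (starRingEnd ℂ) (G x y))).re = κ y * KK G x y := by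
      intro y
      rw [Complex.mul_conj, ← Complex.ofReal_mul, Complex.ofReal_re, Complex.normSq_eq_norm_sq]
      rfl
    rw [Finset.sum_congr rfl fun y _ => h2 y]
    exact Finset.sum_add_sum_compl A fun y => κ y * KK G x y

end Pool.Agent.AFL.H56
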