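import Pool.Agent.AFL.Stmts

/-!
# Squad AFL, row PTA (helper56): numbers at a point
-/

set_option autoImplicit false

open MeasureTheory ProbabilityTheory

open scoped BigOperators Matrix

noncomputable section

namespace Pool.Agent.AFL.H56

open Pool.Agent.LE.QF Pool.Agent.AFJ Pool.Agent.ABY Pool.Agent.AFL

theorem pta : PtaStmt := by
  intro eub X _ _ F c₀ C₀ q hO hP hN hN0
  obtain ⟨hκv, hκv1, hr1, hc0, hc1, hC1, hNn, hδ, hL, hω, hω1, hε, hε1, hs1, hs2, hε₁, hε₁1, hδY,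
    hn, hnL⟩ := hO.num
  obtain ⟨ht0, htT⟩ := hP.ht
  obtain ⟨hbU, hURg, hRgA⟩ := hO.hb
  obtain ⟨hbQ1, hQ1Q, hQA⟩ := hO.hQ
  have hbRg : F.b ⊆ F.Rg := hbU.trans hURg
  have hbA : F.b ⊆ F.A := hbRg.trans hRgA
  have hbR : F.b ⊆ F.R := fun x hx => Finset.mem_inter.2 ⟨hbRg hx, hQ1Q (hbQ1 hx)⟩
  -- the absorption
  have hkb : ∀ t : ℝ, ∀ x ∈ F.b, F.k t x = F.k 0 x - t * F.g x := by
    intro t x hx
    unfold Fl.k Blk.kp Fl.g
    rw [if_pos hx, if_pos hx]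
    ring
  have hkn : ∀ t : ℝ, ∀ x, x ∉ F.b → F.k t x = F.k 0 x := by
    intro t x hx
    unfold Fl.k Blk.kp
    rw [if_neg hx, if_neg hx]
  have hgb : ∀ x ∈ F.b, 0 < F.g x := fun x hx => lt_of_lt_of_le hc0 (hO.hg x (hbA hx)).1
  have h4 : ∀ x, F.k F.T x ≤ F.k q.1 x := by
    intro x
    by_cases hx : x ∈ F.b
    · rw [hkb F.T x hx, hkb q.1 x hx]
      have h1 := mul_le_mul_of_nonneg_right htT (hgb x hx).le
      linarith
    · rw [hkn F.T x hx, hkn q.1 x hx]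
  have h2 : ∀ x, F.k q.1 x ≤ F.k 0 x := by
    intro x
    by_cases hx : x ∈ F.b
    · rw [hkb _ x hx]
      have h1 := mul_nonneg ht0 (hgb x hx).le
      linarith
    · rw [hkn _ x hx]
  have h1 : ∀ x ∈ F.Rg, F.κv ≤ F.k q.1 x := fun x hx => (hO.hv x hx).trans (h4 x)
  have h3 : ∀ x ∈ F.A, F.k 0 x ≤ 2 * F.k q.1 x := by
    intro x hxA
    by_cases hx : x ∈ F.b
    · have h5 := h1 x (hbRg hx)
      have h6 : q.1 * F.g x ≤ F.T * C₀ :=
        mul_le_mul htT (hO.hg x hxA).2 (hgb x hx).le (ht0.trans htT)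
      have h7 := hkb q.1 x hx
      have h8 := hO.hTv.1
      linarith
    · have h5 := hO.pos q.1 x ht0 htT
      have h6 := hkn q.1 x hx
      linarith
  -- the diagonal entries
  obtain ⟨hloc, hflux⟩ := hO.loc q ht0 htT
  have hdia : ∀ x ∈ F.A, ‖F.Gt q x x - F.G0 x x‖ ≤ F.δ := by
    intro x hx
    by_cases hx1 : x ∈ F.Q1
    · exact hP.ent x hx1 x hx1
    · exact (hloc x hx hx1).2
  have him : ∀ x ∈ F.A, (F.Gt q x x).im ≤ (F.G0 x x).im + F.δ := by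
    intro x hx
    have h5 := (Complex.abs_im_le_norm _).trans (hdia x hx)
    rw [Complex.sub_im] at h5
    linarith [(abs_le.1 h5).2]
  have h6 : ∀ x ∈ F.Rg, ‖F.Gt q x x - F.mb x‖ ≤ F.μs := by
    intro x hx
    have h7 : F.Gt q x x - F.mb x = (F.Gt q x x - F.G0 x x) + (F.G0 x x - F.mb x) := by ring
    rw [h7]
    refine (norm_add_le _ _).trans ?_
    have h8 := hdia x (hRgA hx)
    have h9 := hO.hmu x hx
    unfold Fl.μs
    linarith
  have hμs0 : 0 ≤ F.μs := by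
    unfold Fl.μs
    positivity
  have h8 : ∀ x ∈ F.Q, (F.Gt q x x).im ≤ F.r ∧ (F.G0 x x).im ≤ F.r := by
    intro x hx
    have h9 := hO.him x hx
    have h10 := him x (hQA hx)
    exact ⟨by linarith, by linarith⟩
  have h9 : ∀ x ∈ F.Rg, (F.Gt q x x).im ≤ F.g x + F.μs ∧ (F.Gt q x x).im ≤ 3 / 2 * F.g x := by
    intro x hx
    have h10 := (Complex.abs_im_le_norm _).trans (h6 x hx)
    rw [Complex.sub_im] at h10
    have h11 : (F.Gt q x x).im ≤ F.g x + F.μs := by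
      have h12 := (abs_le.1 h10).2
      unfold Fl.g
      linarith
    refine ⟨h11, ?_⟩
    have h12 : F.μs ≤ c₀ / 2 := by
      have h13 := hO.hδ
      unfold Fl.μs
      linarith
    have h13 := (hO.hg x (hRgA hx)).1
    linarith
  have h10 : ∀ x ∈ F.Q1, LaR (F.Gt q) F.R x ≤ F.L := by
    intro x hx
    have h11 := hP.lam x hx
    have h12 := hO.hL x hx
    have h13 : F.ω * F.L ≤ 1 / 2 * F.L := mul_le_mul_of_nonneg_right hω1 hL.le
    linarith
  have h11 : ∀ x ∈ F.A, ∑ c ∈ F.b, KK (F.Gt q) x c ^ 2 ≤ F.L := by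
    intro x hx
    by_cases hx1 : x ∈ F.Q1
    · refine le_trans ?_ (h10 x hx1)
      unfold LaR
      exact Finset.sum_le_sum_of_subset_of_nonneg hbR fun _ _ _ => sq_nonneg _
    · exact (hloc x hx hx1).1
  -- the total absorption
  have hKn : ∀ (G : Matrix X X ℂ) (x y : X), 0 ≤ KK G x y := by
    intro G x y
    unfold KK
    positivity
  have hfl : ∀ (G : Matrix X X ℂ) (κ : X → ℝ), Net G κ → ∀ x,
      rho G κ F.A x + ∑ y ∈ F.Aᶜ, κ y * KK G x y = (G x x).im :=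
    fun G κ hN => (eub X G κ F.A ∅ 0 hN (Finset.empty_subset _)).2.2.2.2.2
  have hfl0 : ∀ (G : Matrix X X ℂ) (κ : X → ℝ), Net G κ → ∀ x,
      0 ≤ ∑ y ∈ F.Aᶜ, κ y * KK G x y := fun G κ hN x =>
    Finset.sum_nonneg fun y _ => mul_nonneg (hN.hκ y).le (hKn G x y)
  have h13 : ∀ x ∈ F.Q, rho (F.Gt q) (F.k q.1) F.A x ≤ F.r ∧ rho F.G0 (F.k 0) F.A x ≤ F.r := by
    intro x hx
    have a1 := hfl _ _ hN x
    have a2 := hfl0 _ _ hN x
    have a3 := hfl _ _ hN0 x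
    have a4 := hfl0 _ _ hN0 x
    obtain ⟨a5, a6⟩ := h8 x hx
    exact ⟨by linarith, by linarith⟩
  refine ⟨h1, fun x _ => h2 x, h3, h4, hkn q.1, h6, ?_, h8, h9, h10, h11, ?_, h13⟩
  · intro x
    unfold mub
    split_ifs with hx
    · exact h6 x (hbRg hx)
    · rw [norm_zero]
      exact hμs0
  · intro x hx
    refine ⟨?_, (h13 x (hQ1Q (hbQ1 hx))).1⟩
    have a1 := hfl _ _ hN x
    have a2 := hfl0 _ _ hN x
    have a3 := hflux x hx
    have a4 := (Complex.abs_im_le_norm _).trans (h6 x (hbRg hx))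
    rw [Complex.sub_im] at a4
    have a5 : |(F.Gt q x x).im - F.g x| ≤ F.μs := a4
    obtain ⟨a6, a7⟩ := abs_le.1 a5
    have a8 : F.μs = (F.N + 1) * F.δ := rfl
    rw [a8] at a6 a7
    rw [abs_le]
    constructor <;> linarith

end Pool.Agent.AFL.H56
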